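import Pool.Agent.H458.AG.Def
import Pool.Graph.R_pool_sql_team_seeded_63374d34.N457.PQ.Sqt

/-!
# Project AG, part LSC (helper234): the image of the Jacobian and scaling by a square
-/

set_option autoImplicit false

namespace Pool.Agent.H234.AG458

theorem lsc : Pool.Agent.H458.AG.S_LSC := by
  intro k _ _ f h e he hf hodd H
  obtain ⟨g, hg⟩ := hodd
  exact Pool.Agent.N457.PQ.sqt k g f h e hf hg he H

end Pool.Agent.H234.AG458
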